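import Pool.Agent.Helper2.AM.Good

/-!
# Weak disorder, any dimension: local spreading of all approximate eigenfunctions in the bulk
-/

open Real MeasureTheory ProbabilityTheory Pool.Agent.Helper2

noncomputable section

namespace Pool.Agent.Helper2.AM.Variant.BulkMass

/-- The Anderson Hamiltonian `-Δ + λ v` acting on functions on `ℤ^d`. -/
def ham {d : ℕ} (lam : ℝ) (v : (Fin d → ℤ) → ℝ) (ψ : (Fin d → ℤ) → ℂ) (x : Fin d → ℤ) : ℂ :=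
  ∑ j : Fin d, (2 * ψ x - ψ (x + Pi.single j 1) - ψ (x - Pi.single j 1)) +
    ((lam * v x : ℝ) : ℂ) * ψ x

/-- The mass of `ψ` in the cube of radius `r` around `x`. -/
def mass {d : ℕ} (x : Fin d → ℤ) (r : ℕ) (ψ : (Fin d → ℤ) → ℂ) : ℝ :=
  ∑ y ∈ Fintype.piFinset fun j => Finset.Icc (x j - r) (x j + r), ‖ψ y‖ ^ 2

/-- Independent, identically distributed random variables `ω x`, `x ∈ ℤ^d`, with `|ω x| ≤ M`
almost surely. -/
structure IIDBounded {d : ℕ} {Ω : Type} [MeasurableSpace Ω] (P : Measure Ω) (M : ℝ)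
    (ω : (Fin d → ℤ) → Ω → ℝ) : Prop where
  indep : iIndepFun ω P
  ident : ∀ x, IdentDistrib (ω x) (ω 0) P P
  bdd : ∀ x, ∀ᵐ s ∂P, |ω x s| ≤ M

theorem result (d : ℕ) (hd : 1 ≤ d) (δ : ℝ) (hδ : 0 < δ) (M : ℝ) (K : ℕ) :
    ∃ C : ℝ, 0 < C ∧ ∀ (Ω : Type) [MeasurableSpace Ω] (P : Measure Ω) [IsProbabilityMeasure P]
      (ω : (Fin d → ℤ) → Ω → ℝ), IIDBounded P M ω →
      ∀ lam t : ℝ, 0 < lam → lam ≤ 1 / 2 → 1 ≤ t →
      ∃ G : Set Ω, MeasurableSet G ∧ P Gᶜ ≤ ENNReal.ofReal ((lam / t) ^ K) ∧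
      ∀ s ∈ G, ∀ (n r : ℕ) (x : Fin d → ℤ), (∀ j, |x j| ≤ n) → 1 ≤ r → (r : ℝ) ≤ (1 / lam) ^ 2 →
        ∀ E : ℝ, (∀ i : ℕ, i ≤ d → δ ≤ |E - 4 * i|) → ∀ ψ : (Fin d → ℤ) → ℂ,
        mass x r ψ ≤ C * r *
          (lam ^ 2 * log (1 / lam) ^ 2 * log ((n + 2) * t / lam) * mass x ⌊(1 / lam) ^ 2⌋₊ ψ +
            mass x ⌊(1 / lam) ^ 2⌋₊ (fun y => ham lam (fun z => ω z s) ψ y - E * ψ y) /
              (lam ^ 2 * log ((n + 2) * t / lam))) := by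
  have hd' : (0 : ℝ) < d := by exact_mod_cast hd
  obtain ⟨C, hC0, hC⟩ := AM.good_loc d 1 hd le_rfl _
    (by have : 0 ≤ 12 * (d * (1 / √((δ / 2) / (8 * d)) + 2) + 2 / (δ / 2)) := by positivity
        linarith) (AM.bulk d (δ / 2)) (AM.bulk d δ)
    (AM.WB_bulk hd (δ / 2) (by positivity)) (δ / 2) (by positivity)
    (fun E hE E0 hE0 i hi => by
      have h1 := hE i hi
      have h2 : |E - 4 * i| ≤ |E - E0| + |E0 - 4 * i| := by
        have : E - 4 * (i : ℝ) = (E - E0) + (E0 - 4 * i) := by ring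
        rw [this]
        exact abs_add_le _ _
      linarith) M K
  refine ⟨C, hC0, ?_⟩
  intro Ω _ P _ ω h lam t h0 h1 ht
  obtain ⟨G, hG1, hG2, hG3⟩ := hC Ω P ω ⟨h.indep, h.ident, h.bdd⟩ lam t h0 h1 ht
  refine ⟨G, hG1, hG2, ?_⟩
  intro s hs n r x hx hr hrl E hE ψ
  have h2 := hG3 s hs n r x hx hr hrl E hE ψ
  rw [← mul_assoc, pow_one] at h2
  exact h2

end Pool.Agent.Helper2.AM.Variant.BulkMass
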